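import Pool.Agent.SCG.Main

/-!
# Sacks forcing collapses `ω₁` over Gitik's model

Let `(M, E)` be a model of ZF whose `ω` is standard, such that in `M`

* `ω₁` has countable cofinality, and
* the set of reals `𝒫(ω)` is the union of a well-ordered family of countable sets.

Then Sacks forcing (as computed in `M`) collapses `ω₁`: there is in `M` a name for an injective
function from `ω₁` to `ω`, and this holds below every condition.

Gitik's model has both properties: all its uncountable cardinals have countable cofinality, and each
of its reals belongs to one of the models `V[G_e]`, `e` a finite set of ordinals, where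
`𝒫(ω) ∩ V[G_e]` is countable in Gitik's model, since `ω₁` of that model is a strong limit cardinal
in `V[G_e]`.
-/

namespace Pool.Agent.Results.MP_1dd34d_lc.SacksCollapses

open SetModel MP63050e Pool.Agent.SCG

universe u

variable {M : Type u} {E : M → M → Prop}

/-- If `(M, E)` is a model of ZF with standard `w = ω` in which `k = ω₁` has countable cofinality and
`𝒫(ω)` is the union of a well-ordered family of countable sets, then Sacks forcing `S` (as computed
in `M`) collapses `ω₁`. -/
theorem result (hM : IsModelZF E) {w k S : M} (hw : IsOmega E w)
    (hst : ∀ x, E x w → ∃ n, IsNum E n x) (hk : IsOmega1 E k) (hcof : CountableCof E w k)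
    (hcov : WOUnionOfCountable E w) (hS : IsSacks E w S) : Collapses E w k S :=
  main hM hw hst hk hcof hcov hS

end Pool.Agent.Results.MP_1dd34d_lc.SacksCollapses
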